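import Pool.Agent.W2helper37.SG.Stm

/-!
# Project SG, piece RAT

An endomorphism whose realisation is a combination of `1` and `par` with `par` really occurring
gives the sign conjecture: the coefficients are rational numbers.
-/

set_option autoImplicit false
set_option linter.unusedSectionVars false
set_option linter.unusedSimpArgs false
set_option backward.isDefEq.respectTransparency false
set_option backward.defeqAttrib.useBackward true

open CategoryTheory Limits MonoidalCategory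
open Pool.Agent.Y112.SR

namespace Pool.Agent.W2helper93.SG

universe v u w

open Functor.LaxMonoidal Functor.OplaxMonoidal

section

variable {C : Type u} [Category.{v} C] [Preadditive C] [Linear ℚ C] [MonoidalCategory C]
  [MonoidalPreadditive C] [MonoidalLinear ℚ C] [SymmetricCategory C]
  [RightRigidCategory C] {K : Type w} [Field K] (R : SuperRealisation C K)

include R in
lemma unitQ (hU : Pool.Agent.W2helper37.SG.UnitQ C) : Pool.Agent.Y112.KD.UnitQ C := by
  refine ⟨hU, fun h1 => ?_⟩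
  have h2 : 𝟙 (R.H.obj (𝟙_ C)) = 0 := by
    rw [← CategoryTheory.Functor.map_id, h1, Functor.map_zero]
  have h3 : 𝟙 (𝟙_ (ModuleCat.{w} K)) = 0 := by
    rw [← Functor.Monoidal.ε_η R.H, ← Category.id_comp (η R.H), h2, zero_comp, comp_zero]
  have h4 := LinearMap.congr_fun (congrArg ModuleCat.Hom.hom h3) (1 : K)
  exact one_ne_zero (α := K) h4

lemma map_two {M : C} {f g : M ⟶ M} {a b c d : K} (hf : R.H.map f = a • 𝟙 _ + b • R.par M)
    (hg : R.H.map g = c • 𝟙 _ + d • R.par M) :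
    R.H.map (f ≫ g) = (a * c + b * d) • 𝟙 _ + (a * d + b * c) • R.par M := by
  rw [Functor.map_comp, hf, hg]
  simp only [Preadditive.add_comp, Preadditive.comp_add, Linear.smul_comp, Linear.comp_smul,
    Category.id_comp, Category.comp_id, R.par_sq]
  module

lemma tr_rat (hU : Pool.Agent.W2helper37.SG.UnitQ C) {M : C} {p q : ℕ}
    (h1 : LinearMap.trace K (R.H.obj M) (𝟙 (R.H.obj M) : R.H.obj M ⟶ R.H.obj M).hom = p + q)
    (h2 : LinearMap.trace K (R.H.obj M) (R.par M).hom = p - q)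
    {g : M ⟶ M} {c d : K} (hg : R.H.map g = c • 𝟙 _ + d • R.par M) :
    ∃ t : ℚ, (t : K) = c * (p - q) + d * (p + q) := by
  have h := Pool.Agent.Y112.KD.real_tr R (unitQ R hU) g
  refine ⟨_, h.trans ?_⟩
  rw [hg, Preadditive.add_comp, Linear.smul_comp, Linear.smul_comp, Category.id_comp, R.par_sq,
    ModuleCat.hom_add, ModuleCat.hom_smul, ModuleCat.hom_smul, map_add, map_smul, map_smul,
    smul_eq_mul, smul_eq_mul, h2, h1]

end

theorem p_rat : Pool.Agent.W2helper37.SG.P_RAT.{u, v, w} := by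
  intro C _ _ _ _ _ _ _ _ K _ R M hU f a b hf hb
  have hK := R_charZero R
  have hT : (2 : K) ≠ 0 := two_ne_zero
  obtain ⟨p, q, h1, h2, h3, h4⟩ := Pool.Agent.Y112.SC.exists_pq R hK M
  by_cases hp : p = 0
  · rw [cplus_iff]
    exact ⟨-𝟙 M, by rw [Functor.map_neg, CategoryTheory.Functor.map_id, h3 hp]⟩
  by_cases hq : q = 0
  · rw [cplus_iff]
    exact ⟨𝟙 M, by rw [CategoryTheory.Functor.map_id, h4 hq]⟩
  have hp' : (p : K) ≠ 0 := by exact_mod_cast hp
  have hq' : (q : K) ≠ 0 := by exact_mod_cast hq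
  have hpq : (p : K) + q ≠ 0 := by
    have : p + q ≠ 0 := by omega
    exact_mod_cast this
  have hf0 : R.H.map (𝟙 M) = (1 : K) • 𝟙 _ + (0 : K) • R.par M := by
    rw [CategoryTheory.Functor.map_id, one_smul, zero_smul, add_zero]
  have hf2 := map_two R hf hf
  have hf3 := map_two R hf hf2
  obtain ⟨t0, e0⟩ := tr_rat R hU h1 h2 hf0
  obtain ⟨t1, e1⟩ := tr_rat R hU h1 h2 hf
  obtain ⟨t2, e2⟩ := tr_rat R hU h1 h2 hf2
  obtain ⟨t3, e3⟩ := tr_rat R hU h1 h2 hf3
  have hD : (t1 : K) ^ 2 - t0 * t2 = 4 * p * q * b ^ 2 := by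
    rw [e0, e1, e2]
    ring
  have hD0 : (t1 : K) ^ 2 - t0 * t2 ≠ 0 := by
    rw [hD]
    have h4' : (4 : K) ≠ 0 := by
      have h5 : (4 : K) = 2 * 2 := by norm_num
      rw [h5]
      exact mul_ne_zero hT hT
    exact mul_ne_zero (mul_ne_zero (mul_ne_zero h4' hp') hq') (pow_ne_zero 2 hb)
  have hE : 2 * a * ((t1 : K) ^ 2 - t0 * t2) = t1 * t2 - t0 * t3 := by
    rw [e0, e1, e2, e3]
    ring
  obtain ⟨ra, hra⟩ : ∃ ra : ℚ, (ra : K) = a := by
    refine ⟨(t1 * t2 - t0 * t3) / (2 * (t1 ^ 2 - t0 * t2)), ?_⟩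
    push_cast
    rw [← hE]
    field_simp
  obtain ⟨rb, hrb⟩ : ∃ rb : ℚ, (rb : K) = b := by
    refine ⟨(t1 - ra * t0) / (p + q), ?_⟩
    push_cast
    rw [hra, e0, e1, div_eq_iff hpq]
    ring
  have hrb0 : (rb : K) ≠ 0 := by rw [hrb]; exact hb
  rw [cplus_iff]
  refine ⟨rb⁻¹ • (f - ra • 𝟙 M), ?_⟩
  rw [R_smul, Functor.map_sub, R_smul, CategoryTheory.Functor.map_id, hf, hra,
    add_sub_cancel_left, smul_smul, Rat.cast_inv, hrb, inv_mul_cancel₀ hb, one_smul]

end Pool.Agent.W2helper93.SG
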